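import Pool.Agent.Helper865.APT.Glue

set_option autoImplicit false

open scoped ENNReal BoundedContinuousFunction

namespace Pool.Agent.Results.MP_a3f7df_an.FredholmInvertible

open Pool.Agent.Helper865.APT
open Pool.Agent.Helper865

variable {n : ℕ} {p q : ℝ≥0∞} [Fact (1 ≤ p)] [Fact (1 ≤ q)]

/-- The operator `T` on the subspace `H` is invertible: it maps `H` bijectively onto itself and its
inverse is bounded. -/
def InvertibleOn {Y : Type*} [NormedAddCommGroup Y] (H : Set Y) (T : Y → Y) : Prop :=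
  Set.BijOn T H H ∧ ∃ c : ℝ, 0 < c ∧ ∀ f ∈ H, ‖f‖ ≤ c * ‖T f‖

theorem norm_lift (f : Fin n → ToepAP.HardyMinus p) :
    ‖(fun i => (f i : LpR p) : Fin n → LpR p)‖ = ‖f‖ :=
  (incl (ToepAP.HardyMinus p) n).norm_map f

theorem exists_lift {f : Fin n → LpR p} (hf : f ∈ HardyVec p n) :
    ∃ g : Fin n → ToepAP.HardyMinus p, f = fun i => (g i : LpR p) :=
  ⟨fun i => ⟨f i, hf i⟩, rfl⟩

theorem lift_mem (g : Fin n → ToepAP.HardyMinus p) :
    (fun i => (g i : LpR p) : Fin n → LpR p) ∈ HardyVec p n := fun i => (g i).2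

theorem mapsTo (hp : 1 < p) (hp' : p ≠ ⊤) (G : Matrix (Fin n) (Fin n) (ℝ →ᵇ ℂ)) :
    Set.MapsTo (toeplitz hp hp' G) (HardyVec p n) (HardyVec p n) := by
  intro f hf
  obtain ⟨g, rfl⟩ := exists_lift hf
  rw [toeplitz_coe]
  exact lift_mem _

theorem bounded_below (hp : 1 < p) (hp' : p ≠ ⊤) (hq : 1 < q) (hq' : q ≠ ⊤)
    (G : Matrix (Fin n) (Fin n) (ℝ →ᵇ ℂ)) (hG : ∀ i j, G i j ∈ AP)
    (h : LeftFredholm (HardyVec p n) (toeplitz hp hp' G)) :
    ∃ c : ℝ, 0 < c ∧ ∀ f ∈ HardyVec q n, ‖f‖ ≤ c * ‖toeplitz hq hq' G f‖ := by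
  have h1 := ToepAP.left_indep hp hp' hq hq' G hG ((left_iff hp hp' G).1 h)
  obtain ⟨c, hc, H⟩ := (ToepAP.leftFredholm_iff hq hq' G hG).1 h1
  refine ⟨c, hc, fun f hf => ?_⟩
  obtain ⟨g, rfl⟩ := exists_lift hf
  rw [toeplitz_coe, norm_lift, norm_lift]
  exact H g

theorem surjective (hp : 1 < p) (hp' : p ≠ ⊤) (hq : 1 < q) (hq' : q ≠ ⊤)
    (G : Matrix (Fin n) (Fin n) (ℝ →ᵇ ℂ)) (hG : ∀ i j, G i j ∈ AP)
    (h : RightFredholm (HardyVec p n) (toeplitz hp hp' G)) :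
    Set.SurjOn (toeplitz hq hq' G) (HardyVec q n) (HardyVec q n) := by
  have h1 := ToepAP.right_indep hp hp' hq hq' G hG ((right_iff hp hp' G).1 h)
  have H := (ToepAP.rightFredholm_iff hq hq' G hG).1 h1
  intro f hf
  obtain ⟨g, rfl⟩ := exists_lift hf
  obtain ⟨u, hu⟩ := H g
  refine ⟨fun i => (u i : LpR q), lift_mem u, ?_⟩
  rw [toeplitz_coe, hu]

/-- The operator `f ↦ P_-(G f)` is linear on `(H^q_-)^n`. -/
theorem map_sub_of_mem (hq : 1 < q) (hq' : q ≠ ⊤) (G : Matrix (Fin n) (Fin n) (ℝ →ᵇ ℂ))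
    {f g : Fin n → LpR q} (hf : f ∈ HardyVec q n) (hg : g ∈ HardyVec q n) :
    f - g ∈ HardyVec q n ∧
      toeplitz hq hq' G (f - g) = toeplitz hq hq' G f - toeplitz hq hq' G g := by
  obtain ⟨u, rfl⟩ := exists_lift hf
  obtain ⟨v, rfl⟩ := exists_lift hg
  have e : (fun i => (u i : LpR q) : Fin n → LpR q) - (fun i => (v i : LpR q))
      = fun i => ((u - v) i : LpR q) := rfl
  rw [e, toeplitz_coe, toeplitz_coe, toeplitz_coe, map_sub]
  exact ⟨lift_mem _, rfl⟩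

/-- **A Toeplitz operator with an almost periodic matrix symbol that is Fredholm on `(H^p_-)^n` for
some `p ∈ (1, ∞)` is invertible, on `(H^p_-)^n` and on `(H^q_-)^n` for every `q ∈ (1, ∞)`.**
Moreover left-Fredholmness for one `p` gives injectivity with closed range (a lower bound) for all
`q`, and right-Fredholmness for one `p` gives surjectivity for all `q`. -/
theorem result (n : ℕ) (G : Matrix (Fin n) (Fin n) (ℝ →ᵇ ℂ)) (hG : ∀ i j, G i j ∈ AP)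
    (p q : ℝ≥0∞) [Fact (1 ≤ p)] [Fact (1 ≤ q)] (hp : 1 < p) (hp' : p ≠ ⊤) (hq : 1 < q)
    (hq' : q ≠ ⊤) :
    (LeftFredholm (HardyVec p n) (toeplitz hp hp' G) →
      ∃ c : ℝ, 0 < c ∧ ∀ f ∈ HardyVec q n, ‖f‖ ≤ c * ‖toeplitz hq hq' G f‖) ∧
    (RightFredholm (HardyVec p n) (toeplitz hp hp' G) →
      Set.SurjOn (toeplitz hq hq' G) (HardyVec q n) (HardyVec q n)) ∧
    (LeftFredholm (HardyVec p n) (toeplitz hp hp' G) →
      RightFredholm (HardyVec p n) (toeplitz hp hp' G) →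
      InvertibleOn (HardyVec q n) (toeplitz hq hq' G)) := by
  refine ⟨bounded_below hp hp' hq hq' G hG, surjective hp hp' hq hq' G hG, fun h1 h2 => ?_⟩
  obtain ⟨c, hc, H⟩ := bounded_below hp hp' hq hq' G hG h1
  refine ⟨⟨mapsTo hq hq' G, ?_, surjective hp hp' hq hq' G hG h2⟩, c, hc, H⟩
  intro f hf g hg hfg
  obtain ⟨hm, he⟩ := map_sub_of_mem hq hq' G hf hg
  have h3 := H _ hm
  rw [he, sub_eq_zero.mpr hfg, norm_zero, mul_zero] at h3
  exact sub_eq_zero.mp (norm_le_zero_iff.mp h3)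

end Pool.Agent.Results.MP_a3f7df_an.FredholmInvertible
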